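import Mathlib

namespace Pool.Agent.helper813_loop

/-- Parity of the number of `true` entries. -/
def par (s : List Bool) : Bool := s.foldr xor false

lemma par_nil : par [] = false := rfl

lemma par_cons (b : Bool) (s : List Bool) : par (b :: s) = xor b (par s) := rfl

lemma par_append (s t : List Bool) : par (s ++ t) = xor (par s) (par t) := by
  induction s with
  | nil => simp [par_nil]
  | cons b s ih => simp [par_cons, ih]

lemma par_take_drop (s : List Bool) (m : ℕ) : par s = xor (par (s.take m)) (par (s.drop m)) := by
  rw [← par_append, List.take_append_drop]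

/-- The last block (among `N` blocks, all but the last of length `r`) with odd parity, or `0`. -/
def spec (r : ℕ) : ℕ → List Bool → ℕ
  | 0, _ => 0
  | p + 1, s => if par (s.drop (p * r)) = true then p + 1 else spec r p (s.take (p * r))

lemma spec_le (r N : ℕ) (s : List Bool) : spec r N s ≤ N := by
  induction N generalizing s with
  | zero => simp [spec]
  | succ p ih =>
    unfold spec
    split_ifs
    · exact le_rfl
    · exact (ih _).trans (Nat.le_succ p)

lemma spec_append_false (r N : ℕ) (s : List Bool) : spec r N (s ++ [false]) = spec r N s := by
  induction N generalizing s with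
  | zero => simp [spec]
  | succ p ih =>
    unfold spec
    by_cases h : p * r ≤ s.length
    · rw [List.drop_append_of_le_length h, List.take_append_of_le_length h, par_append]
      simp [par_cons, par_nil]
    · have h1 : (s ++ [false]).length ≤ p * r := by simp; omega
      have h2 : s.length ≤ p * r := by omega
      rw [List.drop_eq_nil_of_le h1, List.drop_eq_nil_of_le h2, List.take_of_length_le h1,
        List.take_of_length_le h2, ih]

lemma spec_append_true (r N : ℕ) (hN : 0 < N) (s : List Bool) :
    spec r N (s ++ [true]) ≠ spec r N s := by
  induction N with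
  | zero => omega
  | succ p ih =>
    unfold spec
    by_cases h : p * r ≤ s.length
    · rw [List.drop_append_of_le_length h, List.take_append_of_le_length h, par_append]
      have hle := spec_le r p (s.take (p * r))
      cases hp : par (s.drop (p * r)) <;> simp [par_cons, par_nil] <;> omega
    · have h1 : (s ++ [true]).length ≤ p * r := by simp; omega
      have h2 : s.length ≤ p * r := by omega
      have hp : 0 < p := by
        rcases Nat.eq_zero_or_pos p with h0 | h0
        · subst h0; simp at h
        · exact h0
      rw [List.drop_eq_nil_of_le h1, List.drop_eq_nil_of_le h2, List.take_of_length_le h1,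
        List.take_of_length_le h2]
      simpa [par_nil] using ih hp

lemma spec_eq_pos (r N o : ℕ) (ho : 1 ≤ o) (hoN : o ≤ N) (s : List Bool)
    (hs : s.length < (o - 1) * r + r) :
    spec r N s = o ↔ par (s.drop ((o - 1) * r)) = true := by
  induction N with
  | zero => omega
  | succ p ih =>
    rcases Nat.lt_or_ge p o with h | h
    · have hpo : o = p + 1 := by omega
      subst hpo
      have hle := spec_le r p (s.take (p * r))
      unfold spec
      simp only [Nat.add_sub_cancel]
      cases hp : par (s.drop (p * r)) <;> simp; omega
    · have h2 : s.length ≤ p * r := by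
        have h3 : (o - 1) * r + r = o * r := by
          obtain ⟨o', rfl⟩ : ∃ o', o = o' + 1 := ⟨o - 1, by omega⟩
          simp; ring
        have h4 : o * r ≤ p * r := Nat.mul_le_mul_right r h
        omega
      rw [← ih h]
      conv_lhs => unfold spec
      rw [List.drop_eq_nil_of_le h2, List.take_of_length_le h2]
      simp [par_nil]

lemma spec_eq_zero (r N : ℕ) (hN : 1 ≤ N) (s : List Bool) (hs : s.length < r) :
    spec r N s = 0 ↔ par s = false := by
  induction N with
  | zero => omega
  | succ p ih =>
    unfold spec
    rcases Nat.eq_zero_or_pos p with h | h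
    · subst h
      cases hp : par s <;> simp [hp, spec]
    · have h2 : s.length ≤ p * r := by
        have : 1 * r ≤ p * r := Nat.mul_le_mul_right r h
        omega
      rw [List.drop_eq_nil_of_le h2, List.take_of_length_le h2]
      simpa [par_nil] using ih h

/-- One step of the position of a coordinate in transit. -/
def stepu (r : ℕ) (u : ℤ) (b : Bool) : ℤ :=
  if b = true then
    (if u + 3 ≤ (r : ℤ) - 1 then u + 3 else if u + 1 ≤ (r : ℤ) - 1 then u + 1 else u - 1)
  else (if u + 2 ≤ (r : ℤ) - 1 then u + 2 else u)

/-- Position after reading `s`. -/
def upos (r : ℕ) (u : ℤ) (s : List Bool) : ℤ := s.foldl (stepu r) u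

lemma upos_nil (r : ℕ) (u : ℤ) : upos r u [] = u := rfl

lemma upos_snoc (r : ℕ) (u : ℤ) (s : List Bool) (b : Bool) :
    upos r u (s ++ [b]) = stepu r (upos r u s) b := by
  simp [upos]

lemma upos_le (r : ℕ) (u : ℤ) (hu : u ≤ (r : ℤ) - 1) (s : List Bool) :
    upos r u s ≤ (r : ℤ) - 1 := by
  induction s using List.reverseRecOn with
  | nil => simpa [upos_nil] using hu
  | append_singleton s b ih =>
    rw [upos_snoc]; unfold stepu
    split_ifs <;> omega

lemma upos_ge (r : ℕ) (u : ℤ) (s : List Bool) :
    min (u + 2 * (s.length : ℤ)) ((r : ℤ) - 2) ≤ upos r u s := by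
  induction s using List.reverseRecOn with
  | nil => simp [upos_nil]
  | append_singleton s b ih =>
    rw [upos_snoc]; unfold stepu
    rw [List.length_append, List.length_singleton]
    push_cast
    split_ifs <;> omega

lemma upos_par (r : ℕ) (u : ℤ) (s : List Bool) :
    (upos r u s - u) % 2 = if par s = true then 1 else 0 := by
  induction s using List.reverseRecOn with
  | nil => simp [upos_nil, par_nil]
  | append_singleton s b ih =>
    rw [upos_snoc, par_append, par_cons, par_nil]; unfold stepu
    cases hb : b <;> cases hp : par s <;> simp [hp] at ih ⊢ <;> split_ifs <;> omega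

/-- The children of a node, relative to the node's word. -/
inductive Kind (n : ℕ) where
  | special : Kind n
  | internal : Kind n
  | leaf (b : Bool) (t : List (Fin n)) : Kind n

variable {n : ℕ} [NeZero n]

/-- The distinguished letter of a word. -/
def sp (w : List (Fin n)) : Fin n := w.headD 0

/-- Rotation of a word. -/
def rot : List (Fin n) → List (Fin n)
  | [] => []
  | j :: w => w ++ [j]

/-- The type of a child. -/
def child : List (Fin n) → Fin n → Kind n
  | [], k => if k = 0 then Kind.special else Kind.internal
  | j :: w, k =>
    if k = j then Kind.special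
    else match child w k with
      | Kind.special => Kind.leaf false (rot w)
      | Kind.internal => Kind.internal
      | Kind.leaf b t => Kind.leaf (!b) t

lemma child_sp (w : List (Fin n)) : child w (sp w) = Kind.special := by
  cases w <;> simp [child, sp]

lemma child_eq_special {w : List (Fin n)} {k : Fin n} (h : child w k = Kind.special) :
    k = sp w := by
  cases w with
  | nil =>
    by_cases hk : k = 0
    · simpa [sp] using hk
    · simp [child, hk] at h
  | cons j w =>
    by_cases hk : k = j
    · simpa [sp] using hk
    · simp only [child, hk, if_false] at h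
      split at h <;> simp at h

lemma child_internal_not_mem {w : List (Fin n)} {k : Fin n} (h : child w k = Kind.internal) :
    k ∉ w := by
  induction w with
  | nil => simp
  | cons j w ih =>
    by_cases hk : k = j
    · simp [child, hk] at h
    · simp only [child, hk, if_false] at h
      split at h
      · simp at h
      · rename_i h'
        simp [hk, ih h']
      · simp at h

lemma child_of_not_mem {w : List (Fin n)} {k : Fin n} (h : k ∉ w) (h0 : k ≠ 0) :
    child w k = Kind.internal := by
  induction w with
  | nil => simp [child, h0]
  | cons j w ih =>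
    simp only [List.mem_cons, not_or] at h
    simp [child, h.1, ih h.2]

/-- Number of letters not in the word. -/
def unused (w : List (Fin n)) : ℕ := (Finset.univ.filter (fun k : Fin n => k ∉ w)).card

omit [NeZero n] in
lemma unused_snoc_lt {w : List (Fin n)} {k : Fin n} (h : k ∉ w) :
    unused (w ++ [k]) < unused w := by
  unfold unused
  apply Finset.card_lt_card
  rw [Finset.ssubset_iff_of_subset]
  · exact ⟨k, by simp [h], by simp⟩
  · intro x hx
    simp only [Finset.mem_filter, Finset.mem_univ, true_and, List.mem_append,
      List.mem_singleton, not_or] at hx ⊢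
    exact hx.1

/-- The rank of a coordinate. -/
def rank (w : List (Fin n)) (k : Fin n) : ℕ := (Equiv.swap 0 (sp w) k).val

lemma rank_eq_zero {w : List (Fin n)} {k : Fin n} : rank w k = 0 ↔ k = sp w := by
  unfold rank
  constructor
  · intro h
    have h1 : Equiv.swap 0 (sp w) k = 0 := by
      apply Fin.ext; simpa using h
    have h2 := congrArg (Equiv.swap 0 (sp w)) h1
    simpa using h2
  · intro h
    subst h
    simp

lemma rank_lt (w : List (Fin n)) (k : Fin n) : rank w k < n := (Equiv.swap 0 (sp w) k).isLt

lemma exists_rank (w : List (Fin n)) (o : ℕ) (ho : o < n) :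
    ∃ k : Fin n, rank w k = o ∧ ∀ k', rank w k' = o → k' = k := by
  refine ⟨Equiv.swap 0 (sp w) ⟨o, ho⟩, by simp [rank], ?_⟩
  intro k' hk'
  have h1 : Equiv.swap 0 (sp w) k' = ⟨o, ho⟩ := Fin.ext hk'
  rw [← h1]; simp

end Pool.Agent.helper813_loop
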