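import Pool.Agent.helper813_loop.Transit

namespace Pool.Agent.helper813_loop

variable {A : Type*} {R : A → A → Prop} {c : ℤ → A} {r : ℕ} {n : ℕ} [NeZero n]

/-- The value of a child. -/
def alive (V : List Bool → List (Fin n) → ℕ → A) (s : List Bool) (w : List (Fin n)) (k : Fin n)
    (h : ℕ) : A :=
  match child w k with
  | Kind.special => V s (rot w) h
  | Kind.internal => V s (w ++ [k]) h
  | Kind.leaf b t => V (b :: s) t h

/-- The exponent of a coordinate: `1` for the special one and `0` for the others. -/
def ex (w : List (Fin n)) (k : Fin n) : ℕ := if rank w k = 0 then 1 else 0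

/-- The entry time of a coordinate. -/
def entry (r : ℕ) (w : List (Fin n)) (k : Fin n) : ℕ := (rank w k - 1) * r

/-- The content of a coordinate. -/
def cont (c : ℤ → A) (r : ℕ) (V : List Bool → List (Fin n) → ℕ → A) (s : List Bool)
    (w : List (Fin n)) (k : Fin n) (q : ℕ) : A :=
  if s.length < entry r w k + r then
    phase c r (alive V (s.take (entry r w k)) w k)
      (xor (par (s.take (entry r w k))) (decide (ex w k = 1))) (ex w k)
      (s.drop (entry r w k)) q
  else rest c r (n - 1) s (rank w k) q

/-- The measure used in the recursion. -/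
def below (r : ℕ) (n : ℕ) (x y : List Bool × List (Fin n) × ℕ) : Prop :=
  Prod.Lex (· < ·) (Prod.Lex (· < ·) (· < ·))
    (x.2.2, (n * r + 1 - x.1.length, unused x.2.1))
    (y.2.2, (n * r + 1 - y.1.length, unused y.2.1))

open Classical in
/-- The elements. -/
noncomputable def V (f : (Fin n → A) → A) (c : ℤ → A) (r : ℕ) (s : List Bool) (w : List (Fin n)) :
    ℕ → A
  | 0 => c 0
  | q + 1 => f (fun k => cont c r
      (fun s' w' q' => if below r n (s', w', q') (s, w, q + 1) then V f c r s' w' q' else c 0)
      s w k (q + 1))
termination_by q => (q, (n * r + 1 - s.length, unused w))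
decreasing_by
  rename_i h
  exact h

omit [NeZero n] in
lemma below_lt {s s' : List Bool} {w w' : List (Fin n)} {q q' : ℕ} (h : q' < q) :
    below r n (s', w', q') (s, w, q) := Prod.Lex.left _ _ h

omit [NeZero n] in
lemma below_len {s s' : List Bool} {w w' : List (Fin n)} {q : ℕ} (h : s.length < s'.length)
    (h' : s.length ≤ n * r) :
    below r n (s', w', q) (s, w, q) := by
  apply Prod.Lex.right
  apply Prod.Lex.left
  simp only
  omega

omit [NeZero n] in
lemma below_unused {s : List Bool} {w w' : List (Fin n)} {q : ℕ} (h : unused w' < unused w) :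
    below r n (s, w', q) (s, w, q) := by
  apply Prod.Lex.right
  apply Prod.Lex.right
  exact h

lemma ex_le (w : List (Fin n)) (k : Fin n) : ex w k ≤ 1 := by
  unfold ex; split_ifs <;> omega

lemma ex_zero_iff {w : List (Fin n)} {k : Fin n} : ex w k = 0 ↔ k ≠ sp w := by
  unfold ex
  rw [Ne, ← rank_eq_zero]
  split_ifs with h <;> simp [h]

lemma ex_one_iff {w : List (Fin n)} {k : Fin n} : ex w k = 1 ↔ k = sp w := by
  unfold ex
  rw [← rank_eq_zero]
  split_ifs with h <;> simp [h]

lemma entry_le (w : List (Fin n)) (k : Fin n) : entry r w k ≤ n * r := by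
  unfold entry
  have := rank_lt w k
  exact Nat.mul_le_mul_right r (by omega)

/-- The elements used at the level `h` for the coordinate `k` of `(s, w)` are smaller. -/
lemma alive_congr {V₁ V₂ : List Bool → List (Fin n) → ℕ → A} {s : List Bool} {w : List (Fin n)}
    {k : Fin n} {h : ℕ} (H : ∀ s' w', V₁ s' w' h = V₂ s' w' h) :
    alive V₁ s w k h = alive V₂ s w k h := by
  unfold alive
  cases child w k <;> simp [H]

lemma alive_congr' {V₁ V₂ : List Bool → List (Fin n) → ℕ → A} {s : List Bool}
    {w : List (Fin n)} {k : Fin n} {q : ℕ} (hk : k ≠ sp w) (hs : s.length ≤ n * r)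
    (H : ∀ s' w', below r n (s', w', q) (s, w, q) → V₁ s' w' q = V₂ s' w' q) :
    alive V₁ s w k q = alive V₂ s w k q := by
  unfold alive
  cases hc : child w k with
  | special => exact absurd (child_eq_special hc) hk
  | internal =>
    exact H _ _ (below_unused (unused_snoc_lt (child_internal_not_mem hc)))
  | leaf b t =>
    exact H _ _ (below_len (by simp) hs)

lemma tr_congr (c : ℤ → A) (r : ℕ) {D₁ D₂ : ℕ → A} (neg : Bool) (e : ℕ) (he : e ≤ 1)
    {s : List Bool} (hs0 : s ≠ []) (hs : s.length < r) {q : ℕ} (hq : q ≤ r)
    (H : ∀ h < q, D₁ h = D₂ h) :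
    tr c r D₁ neg (1 - (r : ℤ) + e) s q = tr c r D₂ neg (1 - (r : ℤ) + e) s q := by
  have hlen : 1 ≤ s.length := by
    rcases s with _ | ⟨b, s⟩
    · simp at hs0
    · simp
  unfold tr
  split_ifs with h1 h2 h3 h4 h5
  · rfl
  · apply H
    have hge := upos_ge r (1 - (r : ℤ) + e) s
    rw [abs_of_neg h3] at h2 ⊢
    omega
  · rfl
  · unfold Lam
    split_ifs with h6
    · apply H
      have hge := upos_ge r (1 - (r : ℤ) + e) s.dropLast
      omega
    · rfl
  · unfold Lam
    split_ifs with h6
    · exfalso; omega
    · rfl
  · unfold Lam
    split_ifs with h6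
    · apply H
      have hge := upos_ge r (1 - (r : ℤ) + e) s.dropLast
      omega
    · rfl

lemma phase_congr (c : ℤ → A) (r : ℕ) {D₁ D₂ : ℕ → A} (neg : Bool) (e : ℕ) (he : e ≤ 1)
    {s : List Bool} (hs : s.length < r) {q : ℕ} (hq1 : 1 ≤ q) (hq : q ≤ r)
    (H : ∀ h < q, D₁ h = D₂ h) (H' : s = [] → e = 0 → D₁ q = D₂ q) :
    phase c r D₁ neg e s q = phase c r D₂ neg e s q := by
  unfold phase
  split_ifs with h
  · rcases Nat.eq_zero_or_pos e with he0 | he0
    · subst he0; exact H' h rfl
    · exact H _ (by omega)
  · exact tr_congr c r neg e he h hs hq H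

lemma V_zero (f : (Fin n → A) → A) (c : ℤ → A) (r : ℕ) (s : List Bool) (w : List (Fin n)) :
    V f c r s w 0 = c 0 := by
  rw [V]

lemma V_succ (f : (Fin n → A) → A) (c : ℤ → A) (r : ℕ) (s : List Bool) (w : List (Fin n))
    (q : ℕ) (hq : q + 1 ≤ r) :
    V f c r s w (q + 1) = f (fun k => cont c r (V f c r) s w k (q + 1)) := by
  rw [V]
  congr 1
  funext k
  unfold cont
  split_ifs with h1
  · apply phase_congr c r _ _ (ex_le w k) _ (by omega) hq
    · intro h hh
      apply alive_congr
      intro s' w'
      rw [if_pos (below_lt hh)]
    · intro hs he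
      have hlen : s.length ≤ entry r w k := by
        rwa [List.drop_eq_nil_iff] at hs
      rw [List.take_of_length_le hlen]
      apply alive_congr' (r := r) (ex_zero_iff.1 he) (hlen.trans (entry_le w k))
      intro s' w' hb
      rw [if_pos hb]
    · rw [List.length_drop]; omega
  · rfl

/-- Well-founded induction. -/
lemma below_wf (r n : ℕ) [NeZero n] : WellFounded (below r n) := by
  unfold below
  exact InvImage.wf (fun x : List Bool × List (Fin n) × ℕ =>
    (x.2.2, (n * r + 1 - x.1.length, unused x.2.1)))
    (WellFounded.prod_lex wellFounded_lt (WellFounded.prod_lex wellFounded_lt wellFounded_lt))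

/-- The standing assumptions on the operation. -/
structure Oper (R : A → A → Prop) (c : ℤ → A) (f : (Fin n → A) → A) : Prop where
  idem : ∀ x, f (fun _ => x) = x
  comp : ∀ x y : Fin n → A, (∀ k, R (x k) (y k)) → R (f x) (f y)
  absorb : ∀ (j : Fin n) (b : Fin n → A), b j = c 0 → (∀ k, k ≠ j → R (c 0) (b k)) →
    R (c 0) (f b)

variable {f : (Fin n → A) → A}

lemma alive_zero (s : List Bool) (w : List (Fin n)) (k : Fin n) :
    alive (V f c r) s w k 0 = c 0 := by
  unfold alive
  cases child w k <;> simp [V_zero]

/-- Claim (W). -/
lemma claimW (H : Walk R c r) (hf : Oper R c f) (hn : 2 ≤ n) :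
    ∀ x : List Bool × List (Fin n) × ℕ, x.2.2 < r →
      R (V f c r x.1 x.2.1 x.2.2) (V f c r x.1 x.2.1 (x.2.2 + 1)) := by
  intro x
  induction x using (below_wf r n).induction with
  | _ x ih =>
  obtain ⟨s, w, q⟩ := x
  simp only
  intro hq
  -- the paths below
  have hlow : ∀ h < q, ∀ s' (k : Fin n), R (alive (V f c r) s' w k h)
      (alive (V f c r) s' w k (h + 1)) := by
    intro h hh s' k
    unfold alive
    cases child w k with
    | special => exact ih (s', rot w, h) (below_lt hh) (by simp only; omega)
    | internal => exact ih (s', w ++ [k], h) (below_lt hh) (by simp only; omega)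
    | leaf b t => exact ih (b :: s', t, h) (below_lt hh) (by simp only; omega)
  have hsame : ∀ k : Fin n, k ≠ sp w → s.length ≤ n * r → R (alive (V f c r) s w k q)
      (alive (V f c r) s w k (q + 1)) := by
    intro k hk hs
    unfold alive
    cases hc : child w k with
    | special => exact absurd (child_eq_special hc) hk
    | internal =>
      exact ih (s, w ++ [k], q) (below_unused (unused_snoc_lt (child_internal_not_mem hc))) hq
    | leaf b t => exact ih (b :: s, t, q) (below_len (by simp) hs) hq
  rcases Nat.eq_zero_or_pos q with hq0 | hq0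
  · subst hq0
    rw [V_zero, zero_add, V_succ f c r s w 0 (by omega)]
    -- the level one
    have hlev : ∀ k : Fin n, (spec r (n - 1) s = rank w k →
          cont c r (V f c r) s w k (0 + 1) = c 0) ∧
        (spec r (n - 1) s ≠ rank w k → R (c 0) (cont c r (V f c r) s w k (0 + 1))) := by
      intro k
      unfold cont
      split_ifs with h1
      · have hlen : (s.drop (entry r w k)).length < r := by
          rw [List.length_drop]; omega
        have hone := H.phase_one (D := alive (V f c r) (s.take (entry r w k)) w k)
          (alive_zero _ _ _)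
          (xor (par (s.take (entry r w k))) (decide (ex w k = 1))) (ex w k) (ex_le w k)
          (s.drop (entry r w k)) hlen (by
            intro hs he
            have hlen : s.length ≤ entry r w k := by
              rwa [List.drop_eq_nil_iff] at hs
            rw [List.take_of_length_le hlen]
            exact hsame k (ex_zero_iff.1 he) (hlen.trans (entry_le w k)))
        have hspec : spec r (n - 1) s = rank w k ↔
            par (s.drop (entry r w k)) = !(decide (ex w k = 1)) := by
          rcases Nat.eq_zero_or_pos (rank w k) with hr0 | hr0
          · have hent : entry r w k = 0 := by simp [entry, hr0]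
            rw [hent] at h1 ⊢
            rw [hr0, List.drop_zero, spec_eq_zero r (n - 1) (by omega) s (by omega)]
            simp [ex, hr0]
          · have hrk := rank_lt w k
            rw [spec_eq_pos r (n - 1) (rank w k) hr0 (by omega) s h1]
            have : ¬ rank w k = 0 := by omega
            simp [ex, this, entry]
        constructor
        · intro hs
          exact hone.1 (hspec.1 hs)
        · intro hs
          apply hone.2
          rw [Ne, hspec] at hs
          cases h3 : par (s.drop (entry r w k)) <;> cases h4 : decide (ex w k = 1) <;>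
            simp_all
      · constructor
        · intro hs
          unfold rest
          rw [if_pos hs]
          simp [cyc_zero]
        · intro hs
          unfold rest
          rw [if_neg hs]
          simpa using H.cyc_one (par s)
    obtain ⟨j, hj, hj'⟩ := exists_rank w (spec r (n - 1) s) (by
      have := spec_le r (n - 1) s
      omega)
    apply hf.absorb j
    · exact (hlev j).1 hj.symm
    · intro k hk
      apply (hlev k).2
      intro hs
      exact hk (hj' k hs.symm)
  · obtain ⟨p, rfl⟩ : ∃ p, q = p + 1 := ⟨q - 1, by omega⟩
    rw [V_succ f c r s w p (by omega), V_succ f c r s w (p + 1) (by omega)]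
    apply hf.comp
    intro k
    unfold cont
    split_ifs with h1
    · have hlen : (s.drop (entry r w k)).length < r := by
        rw [List.length_drop]; omega
      apply H.phase_W (alive_zero _ _ _) _ _ (ex_le w k) _ hlen (p + 1) hq0 hq
      · intro h hh
        exact hlow h hh _ k
      · intro hs he
        have hlen : s.length ≤ entry r w k := by
          rwa [List.drop_eq_nil_iff] at hs
        rw [List.take_of_length_le hlen]
        exact hsame k (ex_zero_iff.1 he) (hlen.trans (entry_le w k))
    · unfold rest
      split_ifs with h2
      · have := H.cyc_step (!par s) (((p + 1 : ℕ) : ℤ) - 1)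
        convert this using 2
        push_cast; ring
      · have := H.cyc_step (par s) (((p + 1 : ℕ) : ℤ))
        convert this using 2
        push_cast; ring

lemma claimW' (H : Walk R c r) (hf : Oper R c f) (hn : 2 ≤ n) (s : List Bool)
    (w : List (Fin n)) (q : ℕ) (hq : q < r) :
    R (V f c r s w q) (V f c r s w (q + 1)) := claimW H hf hn (s, w, q) hq

lemma alive_W (H : Walk R c r) (hf : Oper R c f) (hn : 2 ≤ n) (s : List Bool)
    (w : List (Fin n)) (k : Fin n) (q : ℕ) (hq : q < r) :
    R (alive (V f c r) s w k q) (alive (V f c r) s w k (q + 1)) := by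
  unfold alive
  cases child w k <;> exact claimW' H hf hn _ _ _ hq

/-- Claim (S0). -/
lemma claimS0 (H : Walk R c r) (hf : Oper R c f) (hn : 2 ≤ n) (q : ℕ) (hq : q + 1 = r) :
    ∀ x : List Bool × List (Fin n) × ℕ,
      R (V f c r x.1 x.2.1 q) (V f c r (x.1 ++ [false]) x.2.1 r) := by
  intro x
  induction x using (below_wf r n).induction with
  | _ x ih =>
  obtain ⟨s, w, z⟩ := x
  simp only
  rcases Nat.eq_zero_or_pos q with hq0 | hq0
  · subst hq0
    have := claimW' H hf hn (s ++ [false]) w 0 (by omega)
    rw [V_zero] at this
    rw [V_zero]
    rwa [zero_add, show (1 : ℕ) = r by omega] at this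
  · obtain ⟨p, rfl⟩ : ∃ p, q = p + 1 := ⟨q - 1, by omega⟩
    subst hq
    rw [V_succ f c _ s w p (by omega), V_succ f c _ (s ++ [false]) w (p + 1) le_rfl]
    apply hf.comp
    intro k
    unfold cont
    rw [List.length_append, List.length_singleton]
    rcases Nat.lt_or_ge (s.length + 1) (entry (p + 1 + 1) w k + (p + 1 + 1)) with h1 | h1
    · rw [if_pos h1, if_pos (by omega)]
      rcases Nat.lt_or_ge s.length (entry (p + 1 + 1) w k) with h2 | h2
      · -- both alive
        have h3 : (s ++ [false]).length ≤ entry (p + 1 + 1) w k := by simp; omega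
        rw [List.take_of_length_le h3, List.take_of_length_le h2.le,
          List.drop_eq_nil_of_le h3, List.drop_eq_nil_of_le h2.le]
        unfold phase
        rw [if_pos rfl, if_pos rfl]
        have hrk : rank w k ≠ 0 := by
          intro h0
          simp [entry, h0] at h2
        have hk : k ≠ sp w := fun h => hrk (rank_eq_zero.2 h)
        rw [ex_zero_iff.2 hk, Nat.sub_zero, Nat.sub_zero]
        unfold alive
        cases hc : child w k with
        | special => exact absurd (child_eq_special hc) hk
        | internal =>
          exact ih (s, w ++ [k], z)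
            (below_unused (unused_snoc_lt (child_internal_not_mem hc)))
        | leaf b t =>
          exact ih (b :: s, t, z) (below_len (by simp) (h2.le.trans (entry_le w k)))
      · rw [List.take_append_of_le_length h2, List.drop_append_of_le_length h2]
        exact H.phase_S0 (by omega) (alive_zero _ _ _)
          (fun h hh => alive_W H hf hn _ w k h hh) _ _ (ex_le w k) _ _ rfl
    · rw [if_neg (by omega : ¬ s.length + 1 < entry (p + 1 + 1) w k + (p + 1 + 1))]
      by_cases h2 : s.length < entry (p + 1 + 1) w k + (p + 1 + 1)
      · rw [if_pos h2]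
        have h3 : (s.drop (entry (p + 1 + 1) w k)).length + 1 = p + 1 + 1 := by
          rw [List.length_drop]; omega
        rw [phase_rest c (p + 1 + 1) (by omega) (alive_zero _ _ _) _ _ (ex_le w k) _ h3
          (p + 1) rfl]
        unfold rest
        rw [spec_append_false]
        have hpar1 : par (s ++ [false]) = par s := by
          rw [par_append]; simp [par_cons, par_nil]
        rw [hpar1]
        have hspec : spec (p + 1 + 1) (n - 1) s = rank w k ↔
            par (s.drop (entry (p + 1 + 1) w k)) = !(decide (ex w k = 1)) := by
          rcases Nat.eq_zero_or_pos (rank w k) with hr0 | hr0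
          · have hent : entry (p + 1 + 1) w k = 0 := by simp [entry, hr0]
            rw [hent] at h2 ⊢
            rw [hr0, List.drop_zero, spec_eq_zero (p + 1 + 1) (n - 1) (by omega) s (by omega)]
            simp [ex, hr0]
          · have hrk := rank_lt w k
            rw [spec_eq_pos (p + 1 + 1) (n - 1) (rank w k) hr0 (by omega) s h2]
            have : ¬ rank w k = 0 := by omega
            simp [ex, this, entry]
        have hpt := par_take_drop s (entry (p + 1 + 1) w k)
        by_cases h4 : spec (p + 1 + 1) (n - 1) s = rank w k
        · rw [if_pos h4, if_pos (hspec.1 h4)]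
          have h5 : (xor (par (s.take (entry (p + 1 + 1) w k))) (decide (ex w k = 1))) =
              !par s := by
            rw [hpt, hspec.1 h4]
            cases par (s.take (entry (p + 1 + 1) w k)) <;> cases decide (ex w k = 1) <;> rfl
          rw [h5]
          have := H.cyc_step (!par s) (((p + 1 : ℕ) : ℤ) - 1)
          convert this using 2
          push_cast; ring
        · rw [if_neg h4, if_neg (fun h => h4 (hspec.2 h))]
          have h5 : (xor (par (s.take (entry (p + 1 + 1) w k))) (decide (ex w k = 1))) =
              par s := by
            have h6 : ¬ (par (s.drop (entry (p + 1 + 1) w k)) = !(decide (ex w k = 1))) :=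
              fun h => h4 (hspec.2 h)
            rw [hpt]
            revert h6
            cases par (s.take (entry (p + 1 + 1) w k)) <;> cases decide (ex w k = 1) <;>
              cases par (s.drop (entry (p + 1 + 1) w k)) <;> simp
          rw [h5]
          have := H.cyc_step (par s) (((p + 1 : ℕ) : ℤ))
          convert this using 2
          push_cast; ring
      · rw [if_neg h2]
        unfold rest
        rw [spec_append_false]
        have hpar1 : par (s ++ [false]) = par s := by
          rw [par_append]; simp [par_cons, par_nil]
        rw [hpar1]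
        split_ifs with h4
        · have := H.cyc_step (!par s) (((p + 1 : ℕ) : ℤ) - 1)
          convert this using 2
          push_cast; ring
        · have := H.cyc_step (par s) (((p + 1 : ℕ) : ℤ))
          convert this using 2
          push_cast; ring

/-- Claim (S1). -/
lemma claimS1 (H : Walk R c r) (hf : Oper R c f) (hn : 2 ≤ n) (hr : 1 ≤ r) :
    ∀ x : List Bool × List (Fin n) × ℕ,
      R (V f c r (x.1 ++ [false]) x.2.1 r) (V f c r (x.1 ++ [true]) x.2.1 r) := by
  intro x
  induction x using (below_wf r n).induction with
  | _ x ih =>
  obtain ⟨s, w, z⟩ := x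
  simp only
  obtain ⟨p, rfl⟩ : ∃ p, r = p + 1 := ⟨r - 1, by omega⟩
  rw [V_succ f c _ (s ++ [false]) w p le_rfl, V_succ f c _ (s ++ [true]) w p le_rfl]
  apply hf.comp
  intro k
  unfold cont
  rw [List.length_append, List.length_append, List.length_singleton, List.length_singleton]
  rcases Nat.lt_or_ge (s.length + 1) (entry (p + 1) w k + (p + 1)) with h1 | h1
  · rw [if_pos h1, if_pos h1]
    rcases Nat.lt_or_ge s.length (entry (p + 1) w k) with h2 | h2
    · have h3 : (s ++ [false]).length ≤ entry (p + 1) w k := by simp; omega
      have h3' : (s ++ [true]).length ≤ entry (p + 1) w k := by simp; omega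
      rw [List.take_of_length_le h3, List.take_of_length_le h3',
        List.drop_eq_nil_of_le h3, List.drop_eq_nil_of_le h3']
      unfold phase
      rw [if_pos rfl, if_pos rfl]
      have hrk : rank w k ≠ 0 := by
        intro h0
        simp [entry, h0] at h2
      have hk : k ≠ sp w := fun h => hrk (rank_eq_zero.2 h)
      rw [ex_zero_iff.2 hk, Nat.sub_zero]
      unfold alive
      cases hc : child w k with
      | special => exact absurd (child_eq_special hc) hk
      | internal =>
        exact ih (s, w ++ [k], z)
          (below_unused (unused_snoc_lt (child_internal_not_mem hc)))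
      | leaf b t =>
        exact ih (b :: s, t, z) (below_len (by simp) (h2.le.trans (entry_le w k)))
    · rw [List.take_append_of_le_length h2, List.drop_append_of_le_length h2,
        List.take_append_of_le_length h2, List.drop_append_of_le_length h2]
      exact H.phase_S1 hr (alive_zero _ _ _)
        (fun h hh => alive_W H hf hn _ w k h hh) _ _ _
  · rw [if_neg (by omega), if_neg (by omega)]
    unfold rest
    have hpar0 : par (s ++ [false]) = par s := by
      rw [par_append]; simp [par_cons, par_nil]
    have hpar1 : par (s ++ [true]) = !par s := by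
      rw [par_append]; simp [par_cons, par_nil]
    have hne := spec_append_true (p + 1) (n - 1) (by omega) s
    rw [spec_append_false, hpar0, hpar1, Bool.not_not]
    by_cases h4 : spec (p + 1) (n - 1) s = rank w k
    · rw [if_pos h4, if_neg (by rw [← h4]; exact hne)]
      exact H.cyc_step' (!par s) _
    · rw [if_neg h4]
      split_ifs with h5
      · exact H.symm _ _ (H.cyc_step' (par s) _)
      · exact H.cyc_flip (par s)

/-- Claim (L1). -/
lemma claimL1 (H : Walk R c r) (hf : Oper R c f) (hn : 2 ≤ n) (hr : 1 ≤ r) (j : Fin n)
    (hj0 : j ≠ 0) :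
    ∀ (m : ℕ) (w : List (Fin n)), unused w = m → j ∉ w →
      R (V f c r [] (j :: w) r) (V f c r [] w r) := by
  intro m
  induction m using Nat.strong_induction_on with
  | _ m ih =>
  intro w hm hj
  obtain ⟨p, rfl⟩ : ∃ p, r = p + 1 := ⟨r - 1, by omega⟩
  rw [V_succ f c _ [] (j :: w) p le_rfl, V_succ f c _ [] w p le_rfl]
  apply hf.comp
  intro k
  have hcont : ∀ w' : List (Fin n), cont c (p + 1) (V f c (p + 1)) [] w' k (p + 1) =
      alive (V f c (p + 1)) [] w' k (p + 1 - ex w' k) := by
    intro w'
    unfold cont
    rw [if_pos (by simp)]
    unfold phase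
    simp
  rw [hcont, hcont]
  by_cases hkj : k = j
  · subst hkj
    have h1 : child (k :: w) k = Kind.special := by simp [child]
    have h2 : child w k = Kind.internal := child_of_not_mem hj hj0
    have h3 : ex (k :: w) k = 1 := ex_one_iff.2 (by simp [sp])
    have h4 : ex w k = 0 := by
      rw [ex_zero_iff]
      intro h
      have := child_sp w
      rw [← h, h2] at this
      simp at this
    rw [h3, h4]
    unfold alive
    rw [h1, h2]
    simp only [Nat.add_sub_cancel, Nat.sub_zero, rot]
    exact claimW' H hf hn _ _ _ (by omega)
  · have h3 : ex (j :: w) k = 0 := by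
      rw [ex_zero_iff]
      simpa [sp] using hkj
    rw [h3, Nat.sub_zero]
    cases hc : child w k with
    | special =>
      have h4 : ex w k = 1 := ex_one_iff.2 (child_eq_special hc)
      have h5 : child (j :: w) k = Kind.leaf false (rot w) := by
        simp [child, hkj, hc]
      rw [h4]
      unfold alive
      rw [hc, h5]
      simp only [Nat.add_sub_cancel]
      exact H.symm _ _ (claimS0 H hf hn p rfl ([], rot w, 0))
    | internal =>
      have h4 : ex w k = 0 := by
        rw [ex_zero_iff]
        intro h
        have := child_sp w
        rw [← h, hc] at this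
        simp at this
      have h5 : child (j :: w) k = Kind.internal := by
        simp [child, hkj, hc]
      rw [h4, Nat.sub_zero]
      unfold alive
      rw [hc, h5]
      simp only [List.cons_append]
      have hkw := child_internal_not_mem hc
      apply ih (unused (w ++ [k])) (by rw [← hm]; exact unused_snoc_lt hkw) (w ++ [k]) rfl
      simp only [List.mem_append, List.mem_singleton, not_or]
      exact ⟨hj, fun h => hkj h.symm⟩
    | leaf b t =>
      have h4 : ex w k = 0 := by
        rw [ex_zero_iff]
        intro h
        have := child_sp w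
        rw [← h, hc] at this
        simp at this
      have h5 : child (j :: w) k = Kind.leaf (!b) t := by
        simp [child, hkj, hc]
      rw [h4, Nat.sub_zero]
      unfold alive
      rw [hc, h5]
      simp only
      have hS := claimS1 H hf hn hr ([], t, 0)
      simp only [List.nil_append] at hS
      cases b
      · exact H.symm _ _ hS
      · exact hS

/-- The loop, for operations of arity at least two. -/
theorem loop_of_two_le (H : Walk R c r) (hf : Oper R c f) (hn : 2 ≤ n) (hr : 1 ≤ r) :
    ∃ x, R x x := by
  refine ⟨V f c r [] [] r, ?_⟩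
  obtain ⟨p, rfl⟩ : ∃ p, r = p + 1 := ⟨r - 1, by omega⟩
  have key : R (V f c (p + 1) [] [] (p + 1)) (f (fun _ => V f c (p + 1) [] [] (p + 1))) := by
    conv_lhs => rw [V_succ f c _ [] [] p le_rfl]
    apply hf.comp
    intro k
    have hcont : cont c (p + 1) (V f c (p + 1)) [] [] k (p + 1) =
        alive (V f c (p + 1)) [] [] k (p + 1 - ex [] k) := by
      unfold cont
      rw [if_pos (by simp)]
      unfold phase
      simp
    rw [hcont]
    by_cases hk : k = 0
    · subst hk
      have h1 : ex [] (0 : Fin n) = 1 := ex_one_iff.2 (by simp [sp])
      rw [h1]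
      unfold alive
      simp only [child, if_true, rot, Nat.add_sub_cancel]
      exact claimW' H hf hn _ _ _ (by omega)
    · have h1 : ex [] k = 0 := ex_zero_iff.2 (by simpa [sp] using hk)
      rw [h1]
      unfold alive
      simp only [child, hk, if_false, List.nil_append, Nat.sub_zero]
      exact claimL1 H hf hn hr k hk _ [] rfl (by simp)
  rwa [hf.idem] at key

end Pool.Agent.helper813_loop
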