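import Pool.Agent.helper813_loop.Basic

namespace Pool.Agent.helper813_loop

variable {A : Type*} {R : A → A → Prop} {c : ℤ → A} {r : ℕ}

/-- The position `j` of the cycle, read in the direction given by `neg`. -/
def cyc (c : ℤ → A) (neg : Bool) (j : ℤ) : A := c (if neg = true then -j else j)

/-- The value at the position `u`. -/
def Lam (c : ℤ → A) (D : ℕ → A) (neg : Bool) (u : ℤ) : A :=
  if u < 0 then D (-u).toNat else cyc c neg u

/-- The content of a coordinate in transit. -/
def tr (c : ℤ → A) (r : ℕ) (D : ℕ → A) (neg : Bool) (u0 : ℤ) (s : List Bool) (q : ℕ) : A :=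
  if q < r then
    (if |upos r u0 s| - ((r : ℤ) - 1 - q) < 0 then c ((|upos r u0 s| - ((r : ℤ) - 1 - q)) % 2)
    else if upos r u0 s < 0 then D (|upos r u0 s| - ((r : ℤ) - 1 - q)).toNat
    else cyc c neg (|upos r u0 s| - ((r : ℤ) - 1 - q)))
  else
    (if s.getLastD false = true then
      (if upos r u0 s.dropLast + 1 ≤ (r : ℤ) - 1 then Lam c D neg (upos r u0 s.dropLast + 2)
        else Lam c D neg (upos r u0 s.dropLast))
    else Lam c D neg (upos r u0 s.dropLast + 1))

/-- The content of a coordinate which is alive or in transit. -/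
def phase (c : ℤ → A) (r : ℕ) (D : ℕ → A) (neg : Bool) (e : ℕ) (s : List Bool) (q : ℕ) : A :=
  if s = [] then D (q - e) else tr c r D neg (1 - (r : ℤ) + e) s q

/-- The content of a coordinate at rest. -/
def rest (c : ℤ → A) (r N : ℕ) (s : List Bool) (o : ℕ) (q : ℤ) : A :=
  if spec r N s = o then cyc c (!par s) (q - 1) else cyc c (par s) q

/-- The standing assumptions on the closed walk `c` of odd length `2 * r + 1`. -/
structure Walk (R : A → A → Prop) (c : ℤ → A) (r : ℕ) : Prop where
  symm : ∀ x y, R x y → R y x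
  step : ∀ j, R (c j) (c (j + 1))
  flip : R (c r) (c (-r))

lemma Walk.cyc_step (H : Walk R c r) (neg : Bool) (j : ℤ) :
    R (cyc c neg j) (cyc c neg (j + 1)) := by
  unfold cyc
  cases neg
  · simpa using H.step j
  · have := H.symm _ _ (H.step (-(j + 1)))
    simpa using this

lemma Walk.cyc_step' (H : Walk R c r) (neg : Bool) (j : ℤ) :
    R (cyc c neg (j - 1)) (cyc c neg j) := by
  have := H.cyc_step neg (j - 1)
  simpa using this

lemma Walk.cyc_flip (H : Walk R c r) (neg : Bool) :
    R (cyc c neg r) (cyc c (!neg) r) := by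
  unfold cyc
  cases neg
  · simpa using H.flip
  · simpa using H.symm _ _ H.flip

lemma cyc_zero (c : ℤ → A) (neg : Bool) : cyc c neg 0 = c 0 := by
  unfold cyc; cases neg <;> simp

lemma Walk.cyc_one (H : Walk R c r) (neg : Bool) : R (c 0) (cyc c neg 1) := by
  have := H.cyc_step neg 0
  rw [cyc_zero] at this
  simpa using this

lemma Walk.zero_one (H : Walk R c r) : R (c 0) (c 1) := by
  simpa using H.step 0

lemma Walk.one_zero (H : Walk R c r) : R (c 1) (c 0) := H.symm _ _ H.zero_one

/-- Adjacency of neighbouring positions. -/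
lemma Walk.lam_step (H : Walk R c r) {D : ℕ → A} (h0 : D 0 = c 0) {K : ℕ}
    (hD : ∀ h < K, R (D h) (D (h + 1))) (neg : Bool) {u : ℤ} (hu : -(K : ℤ) ≤ u) :
    R (Lam c D neg u) (Lam c D neg (u + 1)) := by
  unfold Lam
  by_cases h1 : u < 0
  · by_cases h2 : u + 1 < 0
    · rw [if_pos h1, if_pos h2]
      have h3 : (-u).toNat = (-(u + 1)).toNat + 1 := by omega
      rw [h3]
      exact H.symm _ _ (hD _ (by omega))
    · have h3 : u = -1 := by omega
      subst h3
      rw [if_pos (by norm_num), if_neg (by norm_num)]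
      have := hD 0 (by omega)
      rw [h0] at this
      have h4 := H.symm _ _ this
      have h5 : cyc c neg (-1 + 1) = c 0 := by
        rw [show (-1 + 1 : ℤ) = 0 by norm_num, cyc_zero]
      rw [h5]
      simpa using h4
  · rw [if_neg h1, if_neg (by omega)]
    exact H.cyc_step neg u

lemma Walk.lam_step' (H : Walk R c r) {D : ℕ → A} (h0 : D 0 = c 0) {K : ℕ}
    (hD : ∀ h < K, R (D h) (D (h + 1))) (neg : Bool) {u v : ℤ} (huv : v = u + 1)
    (hu : -(K : ℤ) ≤ u) :
    R (Lam c D neg u) (Lam c D neg v) := by
  subst huv; exact H.lam_step h0 hD neg hu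

lemma tr_snoc_false (c : ℤ → A) (r : ℕ) (D : ℕ → A) (neg : Bool) (u0 : ℤ) (s : List Bool) :
    tr c r D neg u0 (s ++ [false]) r = Lam c D neg (upos r u0 s + 1) := by
  unfold tr
  rw [if_neg (lt_irrefl r)]
  simp

lemma tr_snoc_true (c : ℤ → A) (r : ℕ) (D : ℕ → A) (neg : Bool) (u0 : ℤ) (s : List Bool) :
    tr c r D neg u0 (s ++ [true]) r =
      if upos r u0 s + 1 ≤ (r : ℤ) - 1 then Lam c D neg (upos r u0 s + 2)
        else Lam c D neg (upos r u0 s) := by
  unfold tr
  rw [if_neg (lt_irrefl r)]
  simp

/-- At level `r - 1` the content is the value at the current position. -/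
lemma tr_pred (c : ℤ → A) (r : ℕ) (D : ℕ → A) (neg : Bool) (u0 : ℤ)
    (s : List Bool) (q : ℕ) (hq : q + 1 = r) :
    tr c r D neg u0 s q = Lam c D neg (upos r u0 s) := by
  unfold tr Lam
  rw [if_pos (by omega)]
  have h1 : (r : ℤ) - 1 - q = 0 := by omega
  have h2 := abs_nonneg (upos r u0 s)
  rw [h1, sub_zero, if_neg (by omega)]
  by_cases h3 : upos r u0 s < 0
  · rw [if_pos h3, if_pos h3, abs_of_neg h3]
  · rw [if_neg h3, if_neg h3, abs_of_nonneg (by omega)]

lemma phase_pred (c : ℤ → A) (r : ℕ) (hr : 2 ≤ r) {D : ℕ → A} (h0 : D 0 = c 0) (neg : Bool)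
    (e : ℕ) (he : e ≤ 1) (s : List Bool) (q : ℕ) (hq : q + 1 = r) :
    phase c r D neg e s q = Lam c D neg (upos r (1 - (r : ℤ) + e) s) := by
  unfold phase
  split_ifs with hs
  · subst hs
    rw [upos_nil]
    unfold Lam
    split_ifs with h1
    · congr 1; omega
    · have h2 : (1 - (r : ℤ) + e) = 0 := by omega
      rw [h2, cyc_zero, ← h0]
      congr 1; omega
  · exact tr_pred c r D neg _ s q hq

/-- Claim (S0) for a coordinate in transit. -/
lemma Walk.phase_S0 (H : Walk R c r) (hr : 2 ≤ r) {D : ℕ → A} (h0 : D 0 = c 0)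
    (hD : ∀ h < r, R (D h) (D (h + 1))) (neg : Bool)
    (e : ℕ) (he : e ≤ 1) (s : List Bool) (q : ℕ) (hq : q + 1 = r) :
    R (phase c r D neg e s q) (phase c r D neg e (s ++ [false]) r) := by
  rw [phase_pred c r hr h0 neg e he s q hq]
  have h1 : phase c r D neg e (s ++ [false]) r =
      Lam c D neg (upos r (1 - (r : ℤ) + e) s + 1) := by
    unfold phase
    rw [if_neg (by simp), tr_snoc_false]
  rw [h1]
  apply H.lam_step h0 hD
  have := upos_ge r (1 - (r : ℤ) + e) s
  omega

/-- Claim (S1) for a coordinate in transit. -/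
lemma Walk.phase_S1 (H : Walk R c r) (hr : 1 ≤ r) {D : ℕ → A} (h0 : D 0 = c 0)
    (hD : ∀ h < r, R (D h) (D (h + 1))) (neg : Bool)
    (e : ℕ) (s : List Bool) :
    R (phase c r D neg e (s ++ [false]) r) (phase c r D neg e (s ++ [true]) r) := by
  unfold phase
  rw [if_neg (by simp), if_neg (by simp), tr_snoc_false, tr_snoc_true]
  have := upos_ge r (1 - (r : ℤ) + e) s
  split_ifs with h1
  · exact H.lam_step' h0 hD neg (by ring) (by omega)
  · exact H.symm _ _ (H.lam_step' h0 hD neg (by ring) (by omega))

/-- Claim (W) at the positive levels for a coordinate alive or in transit. -/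
lemma Walk.phase_W (H : Walk R c r) {D : ℕ → A} (h0 : D 0 = c 0) (neg : Bool)
    (e : ℕ) (he : e ≤ 1) (s : List Bool) (hs : s.length < r) (q : ℕ) (hq1 : 1 ≤ q) (hq : q < r)
    (hD : ∀ h < q, R (D h) (D (h + 1))) (hD' : s = [] → e = 0 → R (D q) (D (q + 1))) :
    R (phase c r D neg e s q) (phase c r D neg e s (q + 1)) := by
  by_cases hs0 : s = []
  · unfold phase
    rw [if_pos hs0, if_pos hs0]
    rcases Nat.eq_zero_or_pos e with he0 | he0
    · subst he0; exact hD' hs0 rfl
    · have he1 : e = 1 := by omega
      subst he1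
      have := hD (q - 1) (by omega)
      rwa [Nat.sub_add_cancel hq1] at this
  · rcases Nat.lt_or_ge (q + 1) r with hq2 | hq2
    · unfold phase
      rw [if_neg hs0, if_neg hs0]
      unfold tr
      rw [if_pos hq, if_pos hq2]
      have hlen : 1 ≤ s.length := by
        rcases s with _ | ⟨b, s⟩
        · simp at hs0
        · simp
      have hge := upos_ge r (1 - (r : ℤ) + e) s
      have hle := upos_le r (1 - (r : ℤ) + e) (by omega) s
      generalize hu : upos r (1 - (r : ℤ) + e) s = u at *
      have hh : |u| - ((r : ℤ) - 1 - ((q + 1 : ℕ) : ℤ)) = |u| - ((r : ℤ) - 1 - q) + 1 := by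
        push_cast; ring
      rw [hh]
      generalize hh' : |u| - ((r : ℤ) - 1 - q) = h at *
      by_cases hneg : h < 0
      · rw [if_pos hneg]
        by_cases hneg1 : h + 1 < 0
        · rw [if_pos hneg1]
          rcases Int.emod_two_eq_zero_or_one h with h2 | h2
          · have h3 : (h + 1) % 2 = 1 := by omega
            rw [h2, h3]; exact H.zero_one
          · have h3 : (h + 1) % 2 = 0 := by omega
            rw [h2, h3]; exact H.one_zero
        · have h3 : h = -1 := by omega
          rw [if_neg hneg1, h3]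
          have h4 : (-1 : ℤ) % 2 = 1 := by norm_num
          rw [h4]
          split_ifs
          · simp only [Int.reduceNeg, neg_add_cancel, Int.toNat_zero, h0]; exact H.one_zero
          · rw [show (-1 + 1 : ℤ) = 0 by norm_num, cyc_zero]; exact H.one_zero
      · rw [if_neg hneg, if_neg (by omega : ¬ h + 1 < 0)]
        split_ifs with hu0
        · have h5 : (h + 1).toNat = h.toNat + 1 := by omega
          rw [h5]
          apply hD
          rw [abs_of_neg hu0] at hh'
          omega
        · exact H.cyc_step neg h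
    · have hq3 : q + 1 = r := by omega
      rw [phase_pred c r (by omega) h0 neg e he s q hq3, hq3]
      obtain ⟨s', b, rfl⟩ : ∃ s' b, s = s' ++ [b] :=
        ⟨s.dropLast, s.getLast hs0, (List.dropLast_append_getLast hs0).symm⟩
      unfold phase
      rw [if_neg hs0, upos_snoc]
      have hge := upos_ge r (1 - (r : ℤ) + e) s'
      have hq4 : -(q : ℤ) ≤ upos r (1 - (r : ℤ) + e) s' := by omega
      cases b
      · rw [tr_snoc_false]
        unfold stepu
        simp only [Bool.false_eq_true, if_false]
        split_ifs with h1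
        · exact H.symm _ _ (H.lam_step' h0 hD neg (by ring) (by omega))
        · exact H.lam_step' h0 hD neg rfl (by omega)
      · rw [tr_snoc_true]
        unfold stepu
        simp only [if_true]
        split_ifs
        · exact H.symm _ _ (H.lam_step' h0 hD neg (by ring) (by omega))
        · omega
        · exact H.lam_step' h0 hD neg (by ring) (by omega)
        · exact H.lam_step' h0 hD neg (by ring) (by omega)

/-- Claim (W) at the level zero for a coordinate alive or in transit. -/
lemma Walk.phase_one (H : Walk R c r) {D : ℕ → A} (h0 : D 0 = c 0) (neg : Bool)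
    (e : ℕ) (he : e ≤ 1) (s : List Bool) (hs : s.length < r)
    (hD' : s = [] → e = 0 → R (D 0) (D 1)) :
    (par s = !(decide (e = 1)) → phase c r D neg e s 1 = c 0) ∧
    (par s = (decide (e = 1)) → R (c 0) (phase c r D neg e s 1)) := by
  by_cases hs0 : s = []
  · unfold phase
    rw [if_pos hs0]
    subst hs0
    rw [par_nil]
    rcases Nat.eq_zero_or_pos e with he0 | he0
    · subst he0
      have := hD' rfl rfl
      rw [h0] at this
      simpa using this
    · have he1 : e = 1 := by omega
      subst he1
      simp [h0]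
  · have hlen : 1 ≤ s.length := by
      rcases s with _ | ⟨b, s⟩
      · simp at hs0
      · simp
    unfold phase
    rw [if_neg hs0]
    unfold tr
    rw [if_pos (by omega : 1 < r)]
    have hge := upos_ge r (1 - (r : ℤ) + e) s
    have hle := upos_le r (1 - (r : ℤ) + e) (by omega) s
    have hpar := upos_par r (1 - (r : ℤ) + e) s
    generalize hu : upos r (1 - (r : ℤ) + e) s = u at *
    have habs : |u| % 2 = u % 2 := by
      rcases abs_cases u with h | h <;> omega
    have hle1 : |u| ≤ (r : ℤ) - 1 := by
      rcases abs_cases u with h | h <;> omega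
    have hle2 : u < 0 → |u| ≤ (r : ℤ) - 2 := by
      intro hu0
      rw [abs_of_neg hu0]; omega
    generalize hv : |u| = v at *
    constructor
    · intro hp
      have hev : (v - ((r : ℤ) - 1 - ((1 : ℕ) : ℤ))) % 2 = 0 := by
        rw [hp] at hpar
        push_cast
        rcases Nat.eq_zero_or_pos e with he0 | he0
        · subst he0; simp at hpar; omega
        · have he1 : e = 1 := by omega
          subst he1; simp at hpar; omega
      by_cases h1 : v - ((r : ℤ) - 1 - ((1 : ℕ) : ℤ)) < 0
      · rw [if_pos h1, hev]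
      · rw [if_neg h1]
        have h2 : v - ((r : ℤ) - 1 - ((1 : ℕ) : ℤ)) = 0 := by
          push_cast at *; omega
        rw [h2, cyc_zero]
        simp [h0]
    · intro hp
      have hev : (v - ((r : ℤ) - 1 - ((1 : ℕ) : ℤ))) % 2 = 1 := by
        rw [hp] at hpar
        push_cast
        rcases Nat.eq_zero_or_pos e with he0 | he0
        · subst he0; simp at hpar; omega
        · have he1 : e = 1 := by omega
          subst he1; simp at hpar; omega
      by_cases h1 : v - ((r : ℤ) - 1 - ((1 : ℕ) : ℤ)) < 0
      · rw [if_pos h1, hev]; exact H.zero_one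
      · rw [if_neg h1]
        have h2 : v - ((r : ℤ) - 1 - ((1 : ℕ) : ℤ)) = 1 := by
          push_cast at *; omega
        have h3 : ¬ u < 0 := by
          intro hu0
          have := hle2 hu0
          push_cast at *; omega
        rw [if_neg h3, h2]
        exact H.cyc_one neg

/-- At the end of the transit the content is that of a coordinate at rest. -/
lemma phase_rest (c : ℤ → A) (r : ℕ) (hr : 2 ≤ r) {D : ℕ → A} (h0 : D 0 = c 0) (neg : Bool)
    (e : ℕ) (he : e ≤ 1) (s : List Bool) (hs : s.length + 1 = r) (q : ℕ) (hq : q + 1 = r) :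
    phase c r D neg e s q =
      if par s = !(decide (e = 1)) then cyc c neg ((q : ℤ) - 1) else cyc c neg q := by
  rw [phase_pred c r hr h0 neg e he s q hq]
  have hge := upos_ge r (1 - (r : ℤ) + e) s
  have hle := upos_le r (1 - (r : ℤ) + e) (by omega) s
  have hpar := upos_par r (1 - (r : ℤ) + e) s
  generalize hu : upos r (1 - (r : ℤ) + e) s = u at *
  unfold Lam
  rw [if_neg (by omega)]
  rcases Nat.eq_zero_or_pos e with he0 | he0
  · subst he0
    cases hp : par s
    · simp [hp] at hpar ⊢
      congr 1; omega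
    · simp [hp] at hpar ⊢
      congr 1; omega
  · have he1 : e = 1 := by omega
    subst he1
    cases hp : par s
    · simp [hp] at hpar ⊢
      congr 1; omega
    · simp [hp] at hpar ⊢
      congr 1; omega

end Pool.Agent.helper813_loop
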